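import Pool.Agent.H82.CO.Sq

/-!
# An element with many square roots, and an abelian normal subgroup of small index

Let `A0` be an abelian normal subgroup of index at most `b` of a finite group `G`, and let `c` have at least `|G| / e` square roots. Then some coset
`x A0`, `x ^ 2 = c`, contains at least `|A0| / e` square roots `x a` of `c`, and `(x a) ^ 2 = x ^ 2` means `x a x⁻¹ = a⁻¹`. So the subgroup `A'` of the
elements of `A0` inverted by `x` has index at most `e` in `A0`. It has at most `b` conjugates; their intersection `A` is normal, of index at most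
`b * e ^ b`, and inverted by `x`.
-/

set_option autoImplicit false

namespace Pool.Agent.H92.VI

open Finset

variable {G : Type} [Group G]

/-- the elements of the abelian group `A0` inverted by `x` -/
private def Inv_sub (A0 : Subgroup G) (hab : ∀ a ∈ A0, ∀ b ∈ A0, a * b = b * a) (x : G) : Subgroup G where
  carrier := {a | a ∈ A0 ∧ x * a * x⁻¹ = a⁻¹}
  one_mem' := ⟨A0.one_mem, by group⟩
  mul_mem' := by
    rintro a b ⟨ha, ha'⟩ ⟨hb, hb'⟩
    refine ⟨A0.mul_mem ha hb, ?_⟩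
    have e : x * (a * b) * x⁻¹ = (x * a * x⁻¹) * (x * b * x⁻¹) := by group
    rw [e, ha', hb', ← mul_inv_rev, hab b hb a ha]
  inv_mem' := by
    rintro a ⟨ha, ha'⟩
    refine ⟨A0.inv_mem ha, ?_⟩
    have e : x * a⁻¹ * x⁻¹ = (x * a * x⁻¹)⁻¹ := by group
    rw [e, ha']

private theorem Inv_mem {A0 : Subgroup G} {hab : ∀ a ∈ A0, ∀ b ∈ A0, a * b = b * a} {x a : G} :
    a ∈ Inv_sub A0 hab x ↔ a ∈ A0 ∧ x * a * x⁻¹ = a⁻¹ := Iff.rfl

/-- a coset with many square roots of `c` -/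
private theorem Inv_coset [Finite G] (A0 : Subgroup G) (hab : ∀ a ∈ A0, ∀ b ∈ A0, a * b = b * a) (e : ℕ) (c : G)
    (he : Nat.card G ≤ e * Nat.card {x : G // x ^ 2 = c}) :
    ∃ x : G, x ^ 2 = c ∧ Nat.card A0 ≤ e * Nat.card (Inv_sub A0 hab x) := by
  classical
  have := Fintype.ofFinite G
  have hk : 0 < A0.index := Nat.pos_of_ne_zero Subgroup.index_ne_zero_of_finite
  -- a coset with many square roots
  obtain ⟨q, hq⟩ : ∃ q : G ⧸ A0, Nat.card {x : G // x ^ 2 = c} ≤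
      A0.index * (univ.filter fun x : G => x ^ 2 = c ∧ (x : G ⧸ A0) = q).card := by
    by_contra hcon
    push Not at hcon
    have e1 : Nat.card {x : G // x ^ 2 = c} = ∑ q : G ⧸ A0, (univ.filter fun x : G => x ^ 2 = c ∧ (x : G ⧸ A0) = q).card := by
      rw [Nat.card_eq_fintype_card, Fintype.card_subtype]
      rw [Finset.card_eq_sum_card_fiberwise (f := fun x : G => (x : G ⧸ A0)) (t := univ) (fun _ _ => Finset.mem_coe.mpr (Finset.mem_univ _))]
      refine Finset.sum_congr rfl fun q _ => ?_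
      rw [Finset.filter_filter]
    have e2 : ∑ q : G ⧸ A0, A0.index * (univ.filter fun x : G => x ^ 2 = c ∧ (x : G ⧸ A0) = q).card <
        ∑ q : G ⧸ A0, Nat.card {x : G // x ^ 2 = c} :=
      Finset.sum_lt_sum_of_nonempty ⟨((1 : G) : G ⧸ A0), Finset.mem_univ _⟩ fun q _ => hcon q
    rw [← Finset.mul_sum, ← e1, Finset.sum_const, Finset.card_univ, smul_eq_mul, ← Nat.card_eq_fintype_card] at e2
    exact lt_irrefl _ e2
  have hn : Nat.card G = Nat.card A0 * A0.index := (Subgroup.card_mul_index A0).symm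
  set F := univ.filter fun x : G => x ^ 2 = c ∧ (x : G ⧸ A0) = q with hF
  have h1 : Nat.card A0 ≤ e * F.card := by
    have h2 : A0.index * Nat.card A0 ≤ A0.index * (e * F.card) := by
      calc A0.index * Nat.card A0 = Nat.card G := by rw [hn, mul_comm]
        _ ≤ e * Nat.card {x : G // x ^ 2 = c} := he
        _ ≤ e * (A0.index * F.card) := Nat.mul_le_mul_left _ hq
        _ = A0.index * (e * F.card) := by ring
    exact Nat.le_of_mul_le_mul_left h2 hk
  have hFne : F.Nonempty := by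
    rw [Finset.nonempty_iff_ne_empty]
    intro h0
    rw [h0, Finset.card_empty, mul_zero] at h1
    exact absurd h1 (not_le.mpr Nat.card_pos)
  obtain ⟨x, hx⟩ := hFne
  have hxc : x ^ 2 = c := (Finset.mem_filter.mp hx).2.1
  have hxq : (x : G ⧸ A0) = q := (Finset.mem_filter.mp hx).2.2
  refine ⟨x, hxc, h1.trans (Nat.mul_le_mul_left _ ?_)⟩
  have hmem : ∀ y ∈ F, x⁻¹ * y ∈ Inv_sub A0 hab x := by
    intro y hy
    have hyc : y ^ 2 = c := (Finset.mem_filter.mp hy).2.1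
    have hyq : (y : G ⧸ A0) = q := (Finset.mem_filter.mp hy).2.2
    refine ⟨QuotientGroup.eq.mp (hxq.trans hyq.symm), ?_⟩
    have e1 : y * y = x * x := by rw [← pow_two, ← pow_two, hyc, hxc]
    calc x * (x⁻¹ * y) * x⁻¹ = y⁻¹ * (y * y) * x⁻¹ := by group
      _ = y⁻¹ * (x * x) * x⁻¹ := by rw [e1]
      _ = (x⁻¹ * y)⁻¹ := by group
  have hinj : Function.Injective fun y : F => (⟨x⁻¹ * y.1, hmem y.1 y.2⟩ : Inv_sub A0 hab x) := by
    intro y z h
    have h' : x⁻¹ * y.1 = x⁻¹ * z.1 := congrArg Subtype.val h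
    exact Subtype.ext (mul_left_cancel h')
  have h3 := Nat.card_le_card_of_injective _ hinj
  rwa [Nat.card_eq_fintype_card, Fintype.card_coe] at h3

private def Inv_cj (A' : Subgroup G) (g : G) : Subgroup G := A'.comap (MulAut.conj g⁻¹).toMonoidHom

private theorem Inv_cj_mem {A' : Subgroup G} {g y : G} : y ∈ Inv_cj A' g ↔ g⁻¹ * y * g ∈ A' := by
  unfold Inv_cj
  rw [Subgroup.mem_comap]
  simp

private theorem Inv_cj_rel (A0 A' : Subgroup G) (hN : A0.Normal) (g : G) : (Inv_cj A' g).relIndex A0 = A'.relIndex A0 := by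
  unfold Inv_cj
  rw [Subgroup.relIndex_comap]
  have e : A0.map (MulAut.conj g⁻¹).toMonoidHom = A0 := by
    ext y
    rw [Subgroup.mem_map]
    constructor
    · rintro ⟨z, hz, rfl⟩
      exact hN.conj_mem z hz g⁻¹
    · intro hy
      refine ⟨g * y * g⁻¹, hN.conj_mem y hy g, ?_⟩
      simp [mul_assoc]
  rw [e]

theorem exists_inverted [Finite G] (A0 : Subgroup G) (hN : A0.Normal) (hab : ∀ a ∈ A0, ∀ b ∈ A0, a * b = b * a)
    (b : ℕ) (hb : A0.index ≤ b) (e : ℕ) (c : G) (he : Nat.card G ≤ e * Nat.card {x : G // x ^ 2 = c}) :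
    ∃ A : Subgroup G, A.Normal ∧ A ≤ A0 ∧ A.index ≤ b * e ^ b ∧ ∃ x : G, x ^ 2 = c ∧ ∀ a ∈ A, x * a * x⁻¹ = a⁻¹ := by
  classical
  have := Fintype.ofFinite G
  obtain ⟨x, hxc, hx⟩ := Inv_coset A0 hab e c he
  have he1 : 1 ≤ e := by
    rcases Nat.eq_zero_or_pos e with h | h
    · rw [h, zero_mul] at he
      exact absurd he (not_le.mpr Nat.card_pos)
    · exact h
  have hA'0 : Inv_sub A0 hab x ≤ A0 := fun a ha => ha.1
  have hrel : (Inv_sub A0 hab x).relIndex A0 ≤ e := by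
    have h1 : Nat.card (Inv_sub A0 hab x) * (Inv_sub A0 hab x).relIndex A0 = Nat.card A0 := by
      have h2 := Subgroup.card_mul_index ((Inv_sub A0 hab x).subgroupOf A0)
      rw [Nat.card_congr (Subgroup.subgroupOfEquivOfLe hA'0).toEquiv] at h2
      exact h2
    rw [← h1, mul_comm e] at hx
    exact Nat.le_of_mul_le_mul_left hx Nat.card_pos
  have hle0 : ∀ g : G, Inv_cj (Inv_sub A0 hab x) g ≤ A0 := by
    intro g y hy
    have h1 : g⁻¹ * y * g ∈ A0 := hA'0 (Inv_cj_mem.mp hy)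
    have h2 := hN.conj_mem _ h1 g
    have e1 : g * (g⁻¹ * y * g) * g⁻¹ = y := by group
    rwa [e1] at h2
  refine ⟨⨅ q : G ⧸ A0, Inv_cj (Inv_sub A0 hab x) q.out, ?_, ?_, ?_, x, hxc, ?_⟩
  · refine ⟨fun y hy g => ?_⟩
    rw [Subgroup.mem_iInf] at hy ⊢
    intro q
    rw [Inv_cj_mem]
    -- the coset of `g⁻¹ q.out`
    have h1 := Inv_cj_mem.mp (hy ((g⁻¹ * q.out : G) : G ⧸ A0))
    obtain ⟨a, ha⟩ := QuotientGroup.mk_out_eq_mul A0 (g⁻¹ * q.out)
    rw [ha] at h1
    have h2 : (q.out)⁻¹ * (g * y * g⁻¹) * q.out ∈ A0 := by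
      have h3 : y ∈ A0 := hle0 _ (hy q)
      have h4 := hN.conj_mem _ (hN.conj_mem y h3 g) (q.out)⁻¹
      rwa [inv_inv] at h4
    have h5 : (g⁻¹ * q.out * (a : G))⁻¹ * y * (g⁻¹ * q.out * (a : G)) =
        (a : G)⁻¹ * ((q.out)⁻¹ * (g * y * g⁻¹) * q.out * (a : G)) := by group
    rw [h5, hab _ h2 _ a.2, inv_mul_cancel_left] at h1
    exact h1
  · exact (iInf_le _ ((1 : G) : G ⧸ A0)).trans (hle0 _)
  · have h1 := Subgroup.relIndex_iInf_le (L := A0) fun q : G ⧸ A0 => Inv_cj (Inv_sub A0 hab x) q.out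
    have h2 : ∏ q : G ⧸ A0, (Inv_cj (Inv_sub A0 hab x) q.out).relIndex A0 ≤ e ^ b := by
      calc ∏ q : G ⧸ A0, (Inv_cj (Inv_sub A0 hab x) q.out).relIndex A0 ≤ ∏ _q : G ⧸ A0, e :=
            Finset.prod_le_prod' fun q _ => by rw [Inv_cj_rel A0 _ hN]; exact hrel
        _ = e ^ A0.index := by
            rw [Finset.prod_const, Finset.card_univ, ← Nat.card_eq_fintype_card]; rfl
        _ ≤ e ^ b := Nat.pow_le_pow_right he1 hb
    have h3 : (⨅ q : G ⧸ A0, Inv_cj (Inv_sub A0 hab x) q.out) ≤ A0 := (iInf_le _ ((1 : G) : G ⧸ A0)).trans (hle0 _)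
    rw [← Subgroup.relIndex_mul_index h3, mul_comm]
    exact Nat.mul_le_mul hb (h1.trans h2)
  · intro a ha
    rw [Subgroup.mem_iInf] at ha
    have h1 := Inv_cj_mem.mp (ha ((1 : G) : G ⧸ A0))
    have h2 : a ∈ A0 := hle0 _ (ha ((1 : G) : G ⧸ A0))
    have h3 : (((1 : G) : G ⧸ A0).out) ∈ A0 := by
      obtain ⟨d, hd⟩ := QuotientGroup.mk_out_eq_mul A0 (1 : G)
      rw [hd, one_mul]
      exact d.2
    rw [mul_assoc, hab _ h2 _ h3, inv_mul_cancel_left] at h1
    exact h1.2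

theorem exists_inverted_rt [Fintype G] (A0 : Subgroup G) (hN : A0.Normal) (hab : ∀ a ∈ A0, ∀ b ∈ A0, a * b = b * a)
    (b : ℕ) (hb : A0.index ≤ b) (e : ℕ) (c : G) (he : (Nat.card G : ℝ) ≤ e * Pool.Agent.H82.CO.rt c) :
    ∃ A : Subgroup G, A.Normal ∧ A ≤ A0 ∧ A.index ≤ b * e ^ b ∧ ∃ x : G, x ^ 2 = c ∧ ∀ a ∈ A, x * a * x⁻¹ = a⁻¹ := by
  classical
  refine exists_inverted A0 hN hab b hb e c ?_
  have h1 : Pool.Agent.H82.CO.rt c = (Nat.card {x : G // x ^ 2 = c} : ℝ) := by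
    unfold Pool.Agent.H82.CO.rt
    rw [Nat.card_eq_fintype_card, Fintype.card_subtype, Finset.natCast_card_filter]
  rw [h1] at he
  exact_mod_cast he

end Pool.Agent.H92.VI
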